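import Pool.Agent.N166.MU.Core
import Pool.Agent.W484.CK.Main

/-!
# The conjectures of Murre for products with constant abelian varieties
-/

set_option autoImplicit false
set_option linter.unusedSectionVars false

open CategoryTheory AlgebraicGeometry Polynomial

universe u v w

namespace Pool.Agent.N166.MU

open Pool.Agent.H914 Pool.Agent.H914.VarClass Pool.Agent.H914.VarClass.Obj Pool.Agent.W492.BB
  Pool.Agent.W550.Corr Pool.Agent.TH133 Pool.Agent.W484.CK Pool.Agent.W484.TB
  Pool.Agent.W484.HS Pool.Agent.W521.Frob Pool.Agent.W521.Count Pool.Agent.W521.Bad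
  Pool.Agent.W521.Descent Pool.Agent.W521.Density

section fibre

variable {k : Type u} [Field k] {𝒱 : VarClass k} {C : TheoryData.{u, v, 0} 𝒱 ℚ}
  [hC : IsChowProj C] {k' : Type u} [Field k'] {𝒱' : VarClass k'} {C' : TheoryData.{u, v, 0} 𝒱' ℚ}
  [hC' : IsChowProj C'] {A Y : 𝒱.Obj} {A' Z : 𝒱'.Obj} {α : C.A A → C'.A A'}
  {β : C.A Y → C'.A Z} {γ : C.A (A.prod Y) → C'.A (A'.prod Z)} {J : Type} [Fintype J]
  {deg : J → ℕ} {D E : J → C.A A}

include hC hC' in
/-- A generating system on the model gives one on the generic fibre. -/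
theorem gen_fibre (h : IsGenericFibre C C' α β γ) (hG : Gen C A Y deg D E) :
    Gen C' A' Z deg (fun j => α (D j)) (fun j => α (E j)) where
  left j := h.left _ _ (hG.left j)
  right j := by
    rw [h.dim]
    exact h.left _ _ (hG.right j)
  eq j := by
    change HasDegree C' (C'.mul (α (D j)) (α (E j))) 1
    rw [← h.mul]
    exact h.degree _ _ (hG.eq j)
  ne i j hij := by
    change HasDegree C' (C'.mul (α (D i)) (α (E j))) 0
    rw [← h.mul]
    exact h.degree _ _ (hG.ne i j hij)
  gen i x hx := by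
    obtain ⟨y, hy, rfl⟩ := h.surjective i x hx
    obtain ⟨z, hz, rfl⟩ := hG.gen i y hy
    refine ⟨fun j => β (z j), fun j => h.right _ _ (hz j), ?_⟩
    have h1 : γ (∑ j, C.ext (D j) (z j)) = ∑ j, γ (C.ext (D j) (z j)) :=
      map_sum (AddMonoidHom.mk' γ h.add) _ _
    rw [h1]
    exact Finset.sum_congr rfl fun j _ => h.times (D j) (z j)

include hC hC' in
theorem divisorProduct_fibre (h : IsGenericFibre C C' α β γ) {n : ℕ} {D : C.A A}
    (hD : DivisorProduct C n D) : DivisorProduct C' n (α D) := by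
  obtain ⟨L, hL, h1, rfl⟩ := hD
  have h2 : ∀ L : List (C.A A), α L.prod = (L.map α).prod := by
    intro L
    induction L with
    | nil => exact h.one
    | cons a L ih =>
      rw [List.prod_cons, List.map_cons, List.prod_cons, ← ih]
      exact h.mul a L.prod
  refine ⟨L.map α, by rw [List.length_map, hL], ?_, h2 L⟩
  intro x hx
  obtain ⟨y, hy, rfl⟩ := List.mem_map.1 hx
  exact h.left _ _ (h1 y hy)

end fibre

section gen

variable {k : Type u} [Field k] {𝒱 : VarClass k} {C : TheoryData.{u, v, 0} 𝒱 ℚ}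
  [hC : IsChowProj C] {K : Type w} [Field K] {H : WeilTheoryData.{u, v, w} C K} [hH : IsWeil H]
  {A Y : 𝒱.Obj}

include hC hH in
theorem hasDegree_of_push (hS : IsStandard H) {x : C.A A} (hx : C.Deg A.dim x) {q : ℚ}
    (h : C.push (snd A Y) (C.pull (fst A Y) x) = q • (1 : C.A Y)) : HasDegree C x q := by
  obtain ⟨r, hr⟩ := exists_hasDegree hx
  have h1 := (hr Y).1
  rw [h] at h1
  have h2 : q = r := by
    by_contra hne
    have h3 : (1 : C.A Y) = 0 := by
      have h5 : (q - r) • (1 : C.A Y) = 0 := by rw [sub_smul, h1, sub_self]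
      rw [← one_smul ℚ (1 : C.A Y), ← inv_mul_cancel₀ (sub_ne_zero.2 hne), mul_smul, h5,
        smul_zero]
    have := hS.nontrivial Y
    have h4 : (1 : H.A Y) = 0 := by rw [← map_one H.cl, h3, map_zero]
    exact one_ne_zero h4
  rwa [h2]

include hC hH in
theorem gen_of_dual (hS : IsStandard H) {J : Type} [Fintype J] {deg : J → ℕ} {D E : J → C.A A}
    (hdual : Pool.Agent.W484.CH.IsDual A Y deg D E)
    (hexp : ∀ (i : ℤ) (m : C.A (A.prod Y)), m ∈ C.gr (A.prod Y) i → ∃ z : J → C.A Y,
      (∀ j, C.Deg (i - deg j) (z j)) ∧ m = ∑ j, C.ext (D j) (z j)) : Gen C A Y deg D E where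
  left := hdual.left
  right := hdual.right
  eq j := by
    apply hasDegree_of_push (Y := Y) hS
    · have := C.mul_mem (hdual.left j) (hdual.right j)
      rwa [add_sub_cancel] at this
    · rw [one_smul]
      exact hdual.eq j
  ne i j hij := by
    have h0 := hdual.ne i j hij
    have h1 : (deg i : ℤ) = deg j ∨ (deg i : ℤ) ≠ deg j := em _
    rcases h1 with h1 | h1
    · apply hasDegree_of_push (Y := Y) hS
      · have := C.mul_mem (hdual.left i) (hdual.right j)
        rwa [h1, add_sub_cancel] at this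
      · rw [zero_smul]
        exact h0
    · have hm := C.mul_mem (hdual.left i) (hdual.right j)
      rcases lt_or_gt_of_ne h1 with h2 | h2
      · intro W
        have e1 : C.push (snd A W) (C.pull (fst A W) (D i * E j)) = 0 := by
          have h4 := C.push_mem (snd A W) (C.pull_mem (fst A W) hm)
          rw [C.gr_neg W _ (by rw [Obj.dim_prod]; push_cast; omega)] at h4
          exact (Submodule.mem_bot _).1 h4
        have e2 : C.push (fst W A) (C.pull (snd W A) (D i * E j)) = 0 := by
          have h4 := C.push_mem (fst W A) (C.pull_mem (snd W A) hm)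
          rw [C.gr_neg W _ (by rw [Obj.dim_prod]; push_cast; omega)] at h4
          exact (Submodule.mem_bot _).1 h4
        rw [e1, e2, zero_smul]
        exact ⟨rfl, rfl⟩
      · rw [hC.gr_top A _ _ hm (by omega)]
        exact hasDegree_zero
  gen := hexp

end gen

section inst

variable {k : Type u} [Field k] {𝒱 : VarClass k} {C : TheoryData.{u, v, 0} 𝒱 ℚ}
  [hC : IsChow C] {K : Type w} [Field K] {H : WeilTheoryData.{u, v, w} C K} [hH : IsWeil H]

include hC in
theorem isChowProj_of (hN : IsNormalized C) (hS : IsStandard H) : IsChowProj C where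
  push_one := hN.push_one
  gr_zero := hS.chow_zero
  gr_top X i x hx hi := hS.chow_top X i x hi hx
  degree := hN.degree
  polarized X := by
    obtain ⟨h, hh, q, hq, h1⟩ := hN.polarized X
    exact ⟨h, hh, q, hq, (h1 X).1⟩

include hH in
theorem isWeilProj_of (hS : IsStandard H) (hT : IsTopOriented H) : IsWeilProj H where
  gr_zero := hS.coh_zero
  one_ne_zero X := by
    have := hS.nontrivial X
    exact one_ne_zero
  tr_eq_zero := hT

end inst

section

variable {I : Type} [Finite I] (g : I → ℕ) (E : IntermediateField ℚ ℂ) [FiniteDimensional ℚ E]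
  {q : ℕ} (hq : 1 < q) (r : ℕ) (hr : ∀ i, r < g i)
  (x : (Σ i, Fin (g i)) → ℤ) (hx : GoodU (splitPrimes E) g q x)

include hq hr hx

theorem murreForRankOver_of_good : MurreForRankOver E q r (fun i => weil q (polys g x i)) := by
  intro k _ 𝒱 C _ K _ _ _ H _ s A Y πA πY hN hsit hF k' _ 𝒱' C' _ K' _ H' _ A' Z α β γ hN' hS' hT'
    hfib
  have hC1 : IsChowProj C := isChowProj_of hN hsit.standard
  have hC2 : IsChowProj C' := isChowProj_of hN' hS'
  have hH2 : IsWeilProj H' := isWeilProj_of hS' hT'
  obtain ⟨J, hJ, deg, D, E', hdual, hD, hK⟩ := Pool.Agent.W484.CH.kunneth_main g E hq r hr x hx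
    (isStandard_bridge hsit.standard) hsit.pos (isAbelian_bridge hsit.abelian)
    (πZ := πY) hsit.rank (nilpotence_bridge hsit.nilpotence)
  have h1 : Pool.Agent.W484.CH.HasKunneth (Pool.Agent.W484.CH.chowData C) A Y deg D := Pool.Agent.W484.CH.hasKunneth_of hdual
    Pool.Agent.W484.CH.chowData_isCorrTheory (hK (Pool.Agent.W484.CH.chowData C) Pool.Agent.W484.CH.chowData_isCorrTheory
      (Pool.Agent.W484.CH.chowData_actsAsPower (isFrobenius_bridge hF)))
  have hG : Gen C A Y deg D E' := gen_of_dual hsit.standard hdual (fun i y hy => by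
    obtain ⟨z, ⟨hz1, hz2⟩, -⟩ := h1 i y hy
    refine ⟨z, hz1, hz2.trans ?_⟩
    exact Finset.sum_congr rfl fun j _ => Pool.Agent.W484.CH.act_extBy C (D j) (z j))
  exact murreForProduct_of_gen H' (gen_fibre hfib hG)
    (fun j => divisorProduct_fibre hfib (hD j))

end

end Pool.Agent.N166.MU
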