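import Pool.Agent.W484.CK.Stm

/-!
# The conjectures of Murre for products with constant abelian varieties: statements
-/

set_option autoImplicit false

open CategoryTheory AlgebraicGeometry Polynomial

universe u v w

namespace Pool.Agent.N166.MU

open Pool.Agent.H914 Pool.Agent.H914.VarClass Pool.Agent.H914.VarClass.Obj Pool.Agent.W492.BB
  Pool.Agent.W484.CK

section

variable {k : Type u} [Field k] {𝒱 : VarClass k}

/-- The zero-cycle `x` on `X` has degree `q`: for all `Y` the push-forward of `x × Y` to `Y` is `q`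
times the fundamental class of `Y`. -/
def HasDeg (C : TheoryData.{u, v, 0} 𝒱 ℚ) {X : 𝒱.Obj} (x : C.A X) (q : ℚ) : Prop :=
  ∀ Y : 𝒱.Obj, C.down (snd X Y) (C.up (fst X Y) x) = q • 1 ∧
    C.down (fst Y X) (C.up (snd Y X) x) = q • 1

/-- Standard properties of Chow groups which are not recorded in `IsChow`: push-forwards along
isomorphisms preserve fundamental classes, every zero-cycle has a degree, and the self-intersection
number `h ^ dim X` of some divisor class `h` is not zero (`h` is the class of a hyperplane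
section). -/
structure IsNormalized (C : TheoryData.{u, v, 0} 𝒱 ℚ) : Prop where
  push_one : ∀ {X Y : 𝒱.Obj} (f : X ⟶ Y) (g : Y ⟶ X), f ≫ g = 𝟙 X → g ≫ f = 𝟙 Y → C.down f 1 = 1
  degree : ∀ (X : 𝒱.Obj) (x : C.A X), C.Deg X.dim x → ∃ q : ℚ, HasDeg C x q
  polarized : ∀ X : 𝒱.Obj, ∃ h : C.A X, C.Deg 1 h ∧ ∃ q : ℚ, q ≠ 0 ∧ HasDeg C (h ^ X.dim) q

/-- The tensor product of the self-correspondences `Γ` of `X` and `Δ` of `Z`: the
self-correspondence `Γ × Δ` of `X × Z`. -/
noncomputable def tensor (C : TheoryData.{u, v, 0} 𝒱 ℚ) {X Z : 𝒱.Obj} (Γ : C.A (X.prod X))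
    (Δ : C.A (Z.prod Z)) : C.A ((X.prod Z).prod (X.prod Z)) :=
  C.mul (C.up (prodMap (fst X Z) (fst X Z)) Γ) (C.up (prodMap (snd X Z) (snd X Z)) Δ)

/-- The product of Chow-Kunneth decompositions: its `n`-th component is the sum of the `π i × ρ j`
with `i + j = n`. -/
noncomputable def product (C : TheoryData.{u, v, 0} 𝒱 ℚ) {X Z : 𝒱.Obj} (π : ℕ → C.A (X.prod X))
    (ρ : ℕ → C.A (Z.prod Z)) (n : ℕ) : C.A ((X.prod Z).prod (X.prod Z)) :=
  ∑ i ∈ Finset.range (n + 1), tensor C (π i) (ρ (n - i))

/-- The class `x` is in `F^n CH^i(X) = (π_{2i-n} + ⋯ + π_0)_* CH^i(X)`, the step of the filtration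
attached to the Chow-Kunneth decomposition `π`; it is zero if `n > 2 i`. -/
def InFil (C : TheoryData.{u, v, 0} 𝒱 ℚ) {X : 𝒱.Obj} (π : ℕ → C.A (X.prod X)) (i n : ℕ)
    (x : C.A X) : Prop :=
  ∃ y : C.A X, C.Deg i y ∧ x = ∑ j ∈ Finset.range (2 * i + 1 - n), C.act (π j) y

/-- The first half of (B) for the Chow-Kunneth decomposition `π`: `F^0 CH^i(X) = CH^i(X)`, that is,
`π j` acts as zero on `CH^i(X)` for `j > 2 i`. -/
def SatisfiesB0 (C : TheoryData.{u, v, 0} 𝒱 ℚ) {X : 𝒱.Obj} (π : ℕ → C.A (X.prod X)) : Prop :=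
  ∀ (i : ℕ) (x : C.A X), C.Deg i x → InFil C π i 0 x

/-- The second half of (B) for the Chow-Kunneth decomposition `π`: `F^(i + 1) CH^i(X) = 0`. -/
def SatisfiesB1 (C : TheoryData.{u, v, 0} 𝒱 ℚ) {X : 𝒱.Obj} (π : ℕ → C.A (X.prod X)) : Prop :=
  ∀ (i : ℕ) (x : C.A X), InFil C π i (i + 1) x → x = 0

variable {C : TheoryData.{u, v, 0} 𝒱 ℚ} {K : Type w} [Field K] (H : WeilTheoryData.{u, v, w} C K)

/-- The orientation of `H` vanishes outside the top degree. -/
def IsTopOriented : Prop :=
  ∀ (X : 𝒱.Obj) (i : ℤ) (a : H.A X), H.Deg i a → i ≠ 2 * X.dim → H.tr X a = 0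

/-- A Chow-Kunneth decomposition of `X`: self-correspondences `π 0, …, π (2 dim X)` of degree zero
(`π i = 0` for `i > 2 dim X`) which are mutually orthogonal idempotents with sum the diagonal, and
such that `π i` acts as the identity on `H^i(X)` and as zero on `H^m(X)` for `m ≠ i`. -/
structure IsDecomposition {X : 𝒱.Obj} (π : ℕ → C.A (X.prod X)) : Prop where
  deg : ∀ i, C.Deg X.dim (π i)
  out : ∀ i, 2 * X.dim < i → π i = 0
  comp : ∀ i j, compose C (π i) (π j) = if i = j then π i else 0
  sum : ∑ i ∈ Finset.range (2 * X.dim + 1), π i = diagonal C X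
  act : ∀ (i : ℕ) (m : ℤ) (a : H.A X), H.Deg m a → H.act (H.cl (π i)) a = if m = i then a else 0

/-- The conjecture (D) for the Chow-Kunneth decomposition `π`: `F^1 CH^i(X)` is the group of
homologically trivial cycles. -/
def SatisfiesD {X : 𝒱.Obj} (π : ℕ → C.A (X.prod X)) : Prop :=
  ∀ (i : ℕ) (x : C.A X), InFil C π i 1 x ↔ C.Deg i x ∧ H.cl x = 0

/-- The Chow groups of `A × Z` and the filtrations attached to Chow-Kunneth decompositions of
`A × Z` are determined by those of `Z`: there are finitely many products `D j` of `deg j` divisor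
classes on `A` such that

* every class in `CH^i(A × Z)` can be written in a unique way as `∑ D j × z j` with `z j` in
  `CH^(i - deg j)(Z)`;
* for all Chow-Kunneth decompositions `π` of `A` and `ρ` of `Z`, the product of `π` and `ρ` is a
  Chow-Kunneth decomposition of `A × Z`, and the class `∑ D j × z j` is in `F^n CH^i(A × Z)` if and
  only if all `z j` are in `F^n CH^(i - deg j)(Z)`;
* the product satisfies the first half of (B), the second half of (B) or (D) if and only if `ρ`
  does. -/
def MurreForProduct (A Z : 𝒱.Obj) : Prop :=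
  ∃ (J : Type) (_ : Fintype J) (deg : J → ℕ) (D : J → C.A A),
    (∀ j, DivisorProduct C (deg j) (D j)) ∧
    (∀ (i : ℤ) (x : C.A (A.prod Z)), C.Deg i x → ∃! z : J → C.A Z,
      (∀ j, C.Deg (i - deg j) (z j)) ∧ x = ∑ j, times C (D j) (z j)) ∧
    ∀ (π : ℕ → C.A (A.prod A)) (ρ : ℕ → C.A (Z.prod Z)), IsDecomposition H π →
      IsDecomposition H ρ → IsDecomposition H (product C π ρ) ∧
      (∀ (i : ℕ) (z : J → C.A Z), (∀ j, C.Deg (i - deg j) (z j)) → ∀ n : ℕ,
        InFil C (product C π ρ) i n (∑ j, times C (D j) (z j)) ↔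
          ∀ j, deg j ≤ i → InFil C ρ (i - deg j) n (z j)) ∧
      (SatisfiesB0 C (product C π ρ) ↔ SatisfiesB0 C ρ) ∧
      (SatisfiesB1 C (product C π ρ) ↔ SatisfiesB1 C ρ) ∧
      (SatisfiesD H (product C π ρ) ↔ SatisfiesD H ρ)

end

/-- The maps `α`, `β` and `γ` are the restrictions of cycles on `A`, `Y` and `A × Y` to the generic
fibres `A'`, `Z` and `A' × Z`: here `A` and `Y` are smooth projective varieties over a field `k`, the
variety `Y` has a morphism to a variety `S` with generic fibre `Z`, over the function field `k'` of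
`S`, and `A'` is the constant variety obtained from `A` by extension of the field of definition. -/
structure IsGenericFibre {k : Type u} [Field k] {𝒱 : VarClass k} (C : TheoryData.{u, v, 0} 𝒱 ℚ)
    {k' : Type u} [Field k'] {𝒱' : VarClass k'} (C' : TheoryData.{u, v, 0} 𝒱' ℚ) {A Y : 𝒱.Obj}
    {A' Z : 𝒱'.Obj} (α : C.A A → C'.A A') (β : C.A Y → C'.A Z)
    (γ : C.A (A.prod Y) → C'.A (A'.prod Z)) : Prop where
  dim : A'.dim = A.dim
  one : α 1 = 1
  mul : ∀ a b, α (C.mul a b) = C'.mul (α a) (α b)
  add : ∀ x y, γ (x + y) = γ x + γ y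
  left : ∀ i a, C.Deg i a → C'.Deg i (α a)
  right : ∀ i y, C.Deg i y → C'.Deg i (β y)
  degree : ∀ a n, HasDeg C a n → HasDeg C' (α a) n
  times : ∀ a y, γ (times C a y) = Pool.Agent.W484.CK.times C' (α a) (β y)
  surjective : ∀ i x, C'.Deg i x → ∃ y, C.Deg i y ∧ γ y = x

/-- `MurreForRankOver E q r f`: the following holds for the Chow groups `C` with rational
coefficients of all classes `𝒱` of varieties over fields `k` (finite, in the intended use), every
Weil cohomology theory `H` with coefficients in an algebraically closed field `K` of characteristic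
zero, every `s` and all varieties `A` and `Y` with Frobenius endomorphisms `πA` and `πY` as in
`IsSituation`: `A` is an abelian variety over the field with `q ^ s` elements, isogenous to a product
of powers of abelian varieties coming from the field with `q` elements with characteristic
polynomials `f`, the eigenvalues of Frobenius on the cohomology of `Y` generate a group of rank at
most `r` modulo the group of the numbers with a power in `E`, and homologically trivial
self-correspondences of degree zero of `A × Y` are nilpotent.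

Let `k'` be a field (in the intended use the function field of a variety `S` over `k`), `C'` the
Chow groups with rational coefficients of a class of varieties over `k'`, `H'` any Weil cohomology
theory, and let `A'` and `Z` be varieties over `k'`, the generic fibres of `A × S` and of a morphism
from `Y` to `S`. Then `MurreForProduct` holds for `A'` and `Z`. -/
def MurreForRankOver (E : IntermediateField ℚ ℂ) (q r : ℕ) {I : Type} (f : I → ℤ[X]) : Prop :=
  ∀ (k : Type) [Field k] (𝒱 : VarClass k) (C : TheoryData.{0, 0, 0} 𝒱 ℚ) [IsChow C]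
    (K : Type) [Field K] [IsAlgClosed K] [CharZero K] (H : WeilTheoryData.{0, 0, 0} C K) [IsWeil H]
    (s : ℕ) (A Y : 𝒱.Obj) (πA : A ⟶ A) (πY : Y ⟶ Y), IsNormalized C →
    IsSituation H E q r s f πA πY → IsFrobenius C (prodMap πA πY) (q ^ s) →
  ∀ (k' : Type) [Field k'] (𝒱' : VarClass k') (C' : TheoryData.{0, 0, 0} 𝒱' ℚ) [IsChow C']
    (K' : Type) [Field K'] (H' : WeilTheoryData.{0, 0, 0} C' K') [IsWeil H'] (A' Z : 𝒱'.Obj)
    (α : C.A A → C'.A A') (β : C.A Y → C'.A Z) (γ : C.A (A.prod Y) → C'.A (A'.prod Z)),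
    IsNormalized C' → IsStandard H' → IsTopOriented H' → IsGenericFibre C C' α β γ →
    MurreForProduct H' A' Z

end Pool.Agent.N166.MU
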