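import Pool.Agent.TH133.Ext
import Pool.Agent.N166.MU.Stm

/-!
# The conjectures of Murre for products: the cycles
-/

set_option autoImplicit false
set_option linter.unusedSectionVars false

open CategoryTheory AlgebraicGeometry Polynomial

universe u v w

namespace Pool.Agent.N166.MU

open Pool.Agent.H914 Pool.Agent.H914.VarClass Pool.Agent.H914.VarClass.Obj Pool.Agent.W492.BB
  Pool.Agent.W550.Corr Pool.Agent.TH133

variable {k : Type u} [Field k] {𝒱 : VarClass k}

lemma tensor_eq (C : TheoryData.{u, v, 0} 𝒱 ℚ) {X Z : 𝒱.Obj} (Γ : C.A (X.prod X))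
    (Δ : C.A (Z.prod Z)) : tensor C Γ Δ = tens C Γ Δ := rfl

lemma product_eq (C : TheoryData.{u, v, 0} 𝒱 ℚ) {X Z : 𝒱.Obj} (π : ℕ → C.A (X.prod X))
    (ρ : ℕ → C.A (Z.prod Z)) : product C π ρ = prodCK C π ρ := rfl

lemma inFil_iff (C : TheoryData.{u, v, 0} 𝒱 ℚ) [hC : IsChow C] {X : 𝒱.Obj}
    (π : ℕ → C.A (X.prod X)) (i n : ℕ) (x : C.A X) : InFil C π i n x ↔ x ∈ ckFil C π i n := by
  have h : ∀ y : C.A X, C.actL (∑ j ∈ Finset.range (2 * i + 1 - n), π j) y =
      ∑ j ∈ Finset.range (2 * i + 1 - n), C.act (π j) y := fun y => by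
    rw [TheoryData.actL_apply, act_sum]
  constructor
  · rintro ⟨y, hy, rfl⟩
    exact ⟨y, hy, h y⟩
  · rintro ⟨y, hy, rfl⟩
    exact ⟨y, hy, h y⟩

lemma isDecomposition_iff {C : TheoryData.{u, v, 0} 𝒱 ℚ} {K : Type w} [Field K]
    (H : WeilTheoryData.{u, v, w} C K) {X : 𝒱.Obj} (π : ℕ → C.A (X.prod X)) :
    IsDecomposition H π ↔ IsCK H X π := by
  constructor
  · intro h
    refine ⟨h.deg, h.out, fun i => ?_, fun i j hij => ?_, h.sum, fun i a ha => ?_,
      fun i m a hm ha => ?_⟩
    · have := h.comp i i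
      rwa [if_pos rfl] at this
    · have := h.comp i j
      rwa [if_neg hij] at this
    · have := h.act i i a ha
      rwa [if_pos rfl] at this
    · have := h.act i m a ha
      rwa [if_neg hm] at this
  · intro h
    refine ⟨h.deg, h.out, fun i j => ?_, h.sum, fun i m a ha => ?_⟩
    · split_ifs with hij
      · subst hij
        exact h.idem i
      · exact h.orth i j hij
    · split_ifs with hm
      · subst hm
        exact h.act_self i a ha
      · exact h.act_ne i m a hm ha

/-- Cycles `D j` on `A` with dual cycles `E j` such that the Chow groups of `A × Z` are generated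
by those of `Z`. -/
structure Gen (C : TheoryData.{u, v, 0} 𝒱 ℚ) (A Z : 𝒱.Obj) {J : Type} [Fintype J] (deg : J → ℕ)
    (D E : J → C.A A) : Prop where
  left : ∀ j, C.Deg (deg j) (D j)
  right : ∀ j, C.Deg ((A.dim : ℤ) - deg j) (E j)
  eq : ∀ j, HasDegree C (D j * E j) 1
  ne : ∀ i j, i ≠ j → HasDegree C (D i * E j) 0
  gen : ∀ (i : ℤ) (x : C.A (A.prod Z)), C.Deg i x → ∃ z : J → C.A Z,
    (∀ j, C.Deg (i - deg j) (z j)) ∧ x = ∑ j, C.ext (D j) (z j)

section chow

variable {C : TheoryData.{u, v, 0} 𝒱 ℚ} [hC : IsChowProj C] {A Z : 𝒱.Obj}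

/-- The coefficient of a cycle. -/
noncomputable def coef (a : C.A A) (x : C.A (A.prod Z)) : C.A Z :=
  C.push (snd A Z) (C.pull (fst A Z) a * x)

lemma coef_ext {a b : C.A A} {q : ℚ} (h : HasDegree C (b * a) q) (z : C.A Z) :
    coef a (C.ext b z) = q • z := by
  rw [coef, TheoryData.ext, ← mul_assoc, ← map_mul, ch_comm C a b, C.proj_right, (h Z).1,
    smul_mul_assoc, one_mul]

lemma coef_add (a : C.A A) (x y : C.A (A.prod Z)) : coef a (x + y) = coef a x + coef a y := by
  rw [coef, mul_add, map_add]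
  rfl

lemma coef_zero (a : C.A A) : coef a (0 : C.A (A.prod Z)) = 0 := by
  rw [coef, mul_zero, map_zero]

lemma coef_sum {J : Type} (s : Finset J) (a : C.A A) (x : J → C.A (A.prod Z)) :
    coef a (∑ j ∈ s, x j) = ∑ j ∈ s, coef a (x j) := by
  rw [coef, Finset.mul_sum, map_sum]
  rfl

lemma coef_mem {i j l : ℤ} {a : C.A A} (ha : C.Deg i a) {x : C.A (A.prod Z)} (hx : C.Deg j x)
    (h : i + j - A.dim = l) : C.Deg l (coef a x) := by
  have h1 := C.push_mem (snd A Z) (C.mul_mem (C.pull_mem (fst A Z) ha) hx)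
  have h2 : i + j + 1 * ((Z.dim : ℤ) - (A.prod Z).dim) = l := by
    rw [Obj.dim_prod]
    push_cast
    omega
  rw [h2] at h1
  exact h1

end chow

section weil

variable {C : TheoryData.{u, v, 0} 𝒱 ℚ} [hC : IsChowProj C] {K : Type w} [Field K]
  (H : WeilTheoryData.{u, v, w} C K) [hH : IsWeilProj H] {A Z : 𝒱.Obj} {J : Type} [Fintype J]
  {deg : J → ℕ} {D E : J → C.A A}

include hH

lemma one_ne_zero' (X : 𝒱.Obj) : (1 : C.A X) ≠ 0 := by
  intro h3
  have h4 : (1 : H.A X) = 0 := by rw [← map_one H.cl, h3, map_zero]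
  exact hH.one_ne_zero X h4

/-- A zero-cycle of degree one. -/
lemma exists_point (X : 𝒱.Obj) : ∃ p : C.A X, C.Deg X.dim p ∧ HasDegree C p 1 := by
  obtain ⟨h, hh, q, hq, hhq⟩ := hC.polarized X
  have hpow : ∀ n : ℕ, h ^ n ∈ C.gr X n := by
    intro n
    induction n with
    | zero =>
      rw [pow_zero]
      exact C.one_mem X
    | succ n ih =>
      rw [pow_succ]
      have := C.mul_mem ih hh
      exact_mod_cast this
  obtain ⟨r, hr⟩ := exists_hasDegree (hpow X.dim)
  have h1 : r ≠ 0 := by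
    intro h1
    subst h1
    have h2 : C.push (snd X X) (C.pull (fst X X) (h ^ X.dim)) = q • (1 : C.A X) := hhq
    rw [(hr X).1, zero_smul] at h2
    exact one_ne_zero' H X (by
      rw [← one_smul ℚ (1 : C.A X), ← inv_mul_cancel₀ hq, mul_smul, ← h2, smul_zero])
  refine ⟨r⁻¹ • h ^ X.dim, Submodule.smul_mem _ _ (hpow X.dim), fun Y => ?_⟩
  simp only [map_smul, (hr Y).1, (hr Y).2, smul_smul, inv_mul_cancel₀ h1, one_smul, and_self]

/-- External products with the fundamental class are injective. -/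
lemma eq_zero_of_ext_one {z : C.A Z} (h : C.ext (1 : C.A A) z = 0) : z = 0 := by
  obtain ⟨p, -, hp⟩ := exists_point H A
  have h1 := coef_ext (C := C) (A := A) (Z := Z) (a := p) (b := 1) (q := 1)
    (by rwa [one_mul]) z
  rw [h, coef_zero, one_smul] at h1
  exact h1.symm

lemma eq_zero_of_ext_one' {a : C.A A} (h : C.ext a (1 : C.A Z) = 0) : a = 0 := by
  obtain ⟨p, -, hp⟩ := exists_point H Z
  have h1 : C.push (fst A Z) (C.ext a (1 : C.A Z) * C.pull (snd A Z) p) = a := by
    rw [TheoryData.ext, map_one, mul_one, C.proj_left, (hp A).2, one_smul, mul_one]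
  rw [h, zero_mul, map_zero] at h1
  exact h1.symm

variable (hG : Gen C A Z deg D E)

include hG

omit hH in
lemma coef_gen (z : J → C.A Z) (j : J) : coef (E j) (∑ i, C.ext (D i) (z i)) = z j := by
  classical
  rw [coef_sum, Finset.sum_eq_single j]
  · rw [coef_ext (hG.eq j), one_smul]
  · intro i _ hij
    rw [coef_ext (hG.ne i j hij), zero_smul]
  · intro h
    exact absurd (Finset.mem_univ j) h

omit hH in
/-- The expansion of a cycle on `A × Z`. -/
lemma expand {i : ℤ} {x : C.A (A.prod Z)} (hx : C.Deg i x) :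
    (∀ j, C.Deg (i - deg j) (coef (E j) x)) ∧ x = ∑ j, C.ext (D j) (coef (E j) x) := by
  obtain ⟨z, hz, rfl⟩ := hG.gen i x hx
  have h1 : ∀ j, coef (E j) (∑ i, C.ext (D i) (z i)) = z j := coef_gen hG z
  simp only [h1]
  exact ⟨hz, trivial⟩

/-- Homologically trivial cycles on `A` are zero. -/
lemma hom_zero {c : ℤ} {a : C.A A} (ha : C.Deg c a) (h : H.cl a = 0) : a = 0 := by
  apply eq_zero_of_ext_one' H (A := A) (Z := Z)
  have hx : C.Deg c (C.ext a (1 : C.A Z)) := by
    have := ext_mem' (C := C) ha (C.one_mem Z)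
    rwa [add_zero] at this
  obtain ⟨-, h2⟩ := expand hG hx
  rw [h2]
  apply Finset.sum_eq_zero
  intro j _
  have h3 : coef (E j) (C.ext a (1 : C.A Z)) = 0 := by
    have hm : C.Deg (c + ((A.dim : ℤ) - deg j)) (a * E j) := C.mul_mem ha (hG.right j)
    rcases lt_trichotomy c (deg j : ℤ) with h4 | h4 | h4
    · have h5 := coef_mem (Z := Z) (hG.right j) hx (l := c - deg j) (by ring)
      have h6 := C.gr_neg Z (c - deg j) (by omega)
      have h7 : coef (E j) (C.ext a (1 : C.A Z)) ∈ C.gr Z (c - deg j) := h5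
      rw [h6] at h7
      exact (Submodule.mem_bot _).1 h7
    · have h5 : HasDegree C (a * E j) 0 := by
        apply hasDegree_zero_of_cl H
        · have : c + ((A.dim : ℤ) - deg j) = A.dim := by omega
          rwa [this] at hm
        · rw [map_mul, h, zero_mul]
      rw [coef_ext h5, zero_smul]
    · have h5 : a * E j = 0 := hC.gr_top A _ _ hm (by omega)
      rw [coef_ext (q := 0), zero_smul]
      rw [h5]
      exact hasDegree_zero
  rw [h3]
  exact TheoryData.ext_zero_right _ _

/-- The action of a Chow-Kunneth projector of `A` on cycles. -/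
lemma act_ck {π : ℕ → C.A (A.prod A)} (h : IsCK H A π) {c : ℕ} {a : C.A A} (ha : C.Deg c a)
    (n : ℕ) : C.act (π n) a = if n = 2 * c then a else 0 := by
  have h1 : C.act (π n) a - (if n = 2 * c then a else 0) = 0 := by
    apply hom_zero H hG (c := c)
    · apply Submodule.sub_mem
      · exact act_mem0 C (h.deg n) ha
      · split_ifs
        · exact ha
        · exact Submodule.zero_mem _
    · have h2 := H.cl_mem ha
      rw [map_sub, cl_act H]
      split_ifs with hn
      · rw [h.act_self n _ (by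
          rw [hn]
          have : ((2 * c : ℕ) : ℤ) = 2 * (c : ℤ) := by push_cast; rfl
          rw [this]
          exact h2), sub_self]
      · rw [h.act_ne n (2 * c) _ (by omega) h2, map_zero, sub_zero]
  exact sub_eq_zero.1 h1

/-- The action of the product on an external product. -/
lemma act_product_ext {π : ℕ → C.A (A.prod A)} {ρ : ℕ → C.A (Z.prod Z)} (h : IsCK H A π)
    {c : ℕ} {a : C.A A} (ha : C.Deg c a) (n : ℕ) (z : C.A Z) :
    C.act (product C π ρ n) (C.ext a z) =
      if 2 * c ≤ n then C.ext a (C.act (ρ (n - 2 * c)) z) else 0 := by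
  have h1 : ∀ i ∈ Finset.range (n + 1), C.act (tensor C (π i) (ρ (n - i))) (C.ext a z) =
      if i = 2 * c then C.ext a (C.act (ρ (n - i)) z) else 0 := by
    intro i _
    rw [tensor_eq, act_tens_ext C _ _ (fun f c => ch_comm C _ _), act_ck H hG h ha]
    split_ifs
    · rfl
    · exact TheoryData.ext_zero_left _ _
  rw [product, act_sum, Finset.sum_congr rfl h1, Finset.sum_ite_eq']
  simp only [Finset.mem_range]
  split_ifs with h2 h3 h3
  · rfl
  · omega
  · omega
  · rfl

/-- The action of the product on a cycle. -/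
lemma act_product_sum {π : ℕ → C.A (A.prod A)} {ρ : ℕ → C.A (Z.prod Z)} (h : IsCK H A π)
    (n : ℕ) (z : J → C.A Z) :
    C.act (product C π ρ n) (∑ j, C.ext (D j) (z j)) =
      ∑ j, C.ext (D j) (if 2 * deg j ≤ n then C.act (ρ (n - 2 * deg j)) (z j) else 0) := by
  rw [act_map_sum]
  refine Finset.sum_congr rfl fun j _ => ?_
  rw [act_product_ext H hG h (hG.left j)]
  split_ifs
  · rfl
  · exact (TheoryData.ext_zero_right _ _).symm

/-- When the product kills a cycle. -/
lemma act_product_eq_zero {π : ℕ → C.A (A.prod A)} {ρ : ℕ → C.A (Z.prod Z)} (h : IsCK H A π)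
    (n : ℕ) (z : J → C.A Z) :
    C.act (product C π ρ n) (∑ j, C.ext (D j) (z j)) = 0 ↔
      ∀ j, 2 * deg j ≤ n → C.act (ρ (n - 2 * deg j)) (z j) = 0 := by
  rw [act_product_sum H hG h]
  constructor
  · intro h1 j hj
    have h2 := congrArg (coef (E j)) h1
    rw [coef_gen hG, coef_zero, if_pos hj] at h2
    exact h2
  · intro h1
    apply Finset.sum_eq_zero
    intro j _
    split_ifs with hj
    · rw [h1 j hj]
      exact TheoryData.ext_zero_right _ _
    · exact TheoryData.ext_zero_right _ _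

/-- The filtration. -/
lemma mem_ckFil_product {π : ℕ → C.A (A.prod A)} {ρ : ℕ → C.A (Z.prod Z)} (h : IsCK H A π)
    (h' : IsCK H Z ρ) (i : ℕ) (z : J → C.A Z) (hz : ∀ j, C.Deg (i - deg j) (z j)) (n : ℕ) :
    ∑ j, C.ext (D j) (z j) ∈ ckFil C (product C π ρ) i n ↔
      ∀ j, deg j ≤ i → z j ∈ ckFil C ρ (i - deg j) n := by
  have hp : IsCK H (A.prod Z) (product C π ρ) := h.prod h'
  rw [hp.mem_ckFil]
  have hx : ∑ j, C.ext (D j) (z j) ∈ C.gr (A.prod Z) i := by
    apply Submodule.sum_mem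
    intro j _
    have := ext_mem' (C := C) (hG.left j) (hz j)
    rwa [add_sub_cancel] at this
  constructor
  · rintro ⟨-, h1⟩ j hj
    rw [h'.mem_ckFil]
    refine ⟨?_, fun m hm => ?_⟩
    · rw [Nat.cast_sub hj]
      exact hz j
    · have h2 := h1 (m + 2 * deg j) (by omega)
      rw [act_product_eq_zero H hG h] at h2
      have h3 := h2 j (by omega)
      rwa [Nat.add_sub_cancel] at h3
  · intro h1
    refine ⟨hx, fun m hm => ?_⟩
    rw [act_product_eq_zero H hG h]
    intro j hj
    by_cases hji : deg j ≤ i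
    · have h2 := h1 j hji
      rw [h'.mem_ckFil] at h2
      exact h2.2 _ (by omega)
    · have h2 := hz j
      have h3 : z j ∈ C.gr Z ((i : ℤ) - deg j) := h2
      rw [C.gr_neg Z _ (by omega)] at h3
      rw [(Submodule.mem_bot _).1 h3, TheoryData.act_map_zero]

lemma act_product_one {π : ℕ → C.A (A.prod A)} {ρ : ℕ → C.A (Z.prod Z)} (h : IsCK H A π)
    (n : ℕ) (z : C.A Z) :
    C.act (product C π ρ n) (C.ext 1 z) = C.ext 1 (C.act (ρ n) z) := by
  rw [act_product_ext H hG h (c := 0) (by exact_mod_cast C.one_mem A), if_pos (by omega)]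
  rfl

lemma ext_one_mem_ckFil {π : ℕ → C.A (A.prod A)} {ρ : ℕ → C.A (Z.prod Z)} (h : IsCK H A π)
    (h' : IsCK H Z ρ) (i n : ℕ) (z : C.A Z) (hz : C.Deg i z) :
    C.ext 1 z ∈ ckFil C (product C π ρ) i n ↔ z ∈ ckFil C ρ i n := by
  have hp : IsCK H (A.prod Z) (product C π ρ) := h.prod h'
  rw [hp.mem_ckFil, h'.mem_ckFil]
  have hx : C.ext (1 : C.A A) z ∈ C.gr (A.prod Z) i := by
    have := ext_mem' (C := C) (C.one_mem A) hz
    rwa [zero_add] at this
  simp only [act_product_one H hG h]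
  constructor
  · rintro ⟨-, h1⟩
    exact ⟨hz, fun j hj => eq_zero_of_ext_one H (h1 j hj)⟩
  · rintro ⟨-, h1⟩
    refine ⟨hx, fun j hj => ?_⟩
    rw [h1 j hj]
    exact TheoryData.ext_zero_right _ _

lemma satisfiesB0_iff {π : ℕ → C.A (A.prod A)} {ρ : ℕ → C.A (Z.prod Z)} (h : IsCK H A π)
    (h' : IsCK H Z ρ) : SatisfiesB0 C (product C π ρ) ↔ SatisfiesB0 C ρ := by
  simp only [SatisfiesB0, inFil_iff]
  constructor
  · intro hB i z hz
    rw [← ext_one_mem_ckFil H hG h h' i 0 z hz]
    apply hB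
    have := ext_mem' (C := C) (C.one_mem A) hz
    rwa [zero_add] at this
  · intro hB i x hx
    obtain ⟨h1, h2⟩ := expand hG hx
    rw [h2, mem_ckFil_product H hG h h' i _ h1]
    intro j hj
    apply hB
    rw [Nat.cast_sub hj]
    exact h1 j

lemma satisfiesB1_iff {π : ℕ → C.A (A.prod A)} {ρ : ℕ → C.A (Z.prod Z)} (h : IsCK H A π)
    (h' : IsCK H Z ρ) : SatisfiesB1 C (product C π ρ) ↔ SatisfiesB1 C ρ := by
  have hp : IsCK H (A.prod Z) (product C π ρ) := h.prod h'
  simp only [SatisfiesB1, inFil_iff]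
  constructor
  · intro hB i z hz
    have hz' := ((h'.mem_ckFil _ _ _).1 hz).1
    rw [← ext_one_mem_ckFil H hG h h' i (i + 1) z hz'] at hz
    exact eq_zero_of_ext_one H (hB i _ hz)
  · intro hB i x hx
    have hx' := ((hp.mem_ckFil _ _ _).1 hx).1
    obtain ⟨h1, h2⟩ := expand hG hx'
    rw [h2, mem_ckFil_product H hG h h' i _ h1] at hx
    rw [h2]
    apply Finset.sum_eq_zero
    intro j _
    have h3 : coef (E j) x = 0 := by
      by_cases hj : deg j ≤ i
      · apply hB (i - deg j)
        have h4 := hx j hj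
        rw [h'.mem_ckFil] at h4 ⊢
        exact ⟨h4.1, fun m hm => h4.2 m (by omega)⟩
      · have h3 : coef (E j) x ∈ C.gr Z ((i : ℤ) - deg j) := h1 j
        rw [C.gr_neg Z _ (by omega)] at h3
        exact (Submodule.mem_bot _).1 h3
    rw [h3]
    exact TheoryData.ext_zero_right _ _

lemma satisfiesD_iff {π : ℕ → C.A (A.prod A)} {ρ : ℕ → C.A (Z.prod Z)} (h : IsCK H A π)
    (h' : IsCK H Z ρ) : SatisfiesD H (product C π ρ) ↔ SatisfiesD H ρ := by
  have hp : IsCK H (A.prod Z) (product C π ρ) := h.prod h'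
  simp only [SatisfiesD, inFil_iff]
  constructor
  · intro hB i z
    constructor
    · intro hz
      have hz' := ((h'.mem_ckFil _ _ _).1 hz).1
      refine ⟨hz', ?_⟩
      have h1 := ((h'.mem_ckFil _ _ _).1 hz).2 (2 * i) (by omega)
      have h2 := congrArg H.cl h1
      rw [cl_act H, map_zero] at h2
      rw [← h2, h'.act_self]
      have h3 := H.cl_mem hz'
      have : ((2 * i : ℕ) : ℤ) = 2 * (i : ℤ) := by push_cast; rfl
      rw [this]
      exact h3
    · rintro ⟨hz, hz0⟩
      rw [← ext_one_mem_ckFil H hG h h' i 1 z hz, hB]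
      refine ⟨?_, ?_⟩
      · have := ext_mem' (C := C) (C.one_mem A) hz
        rwa [zero_add] at this
      · rw [TheoryData.ext, map_mul, H.cl_pull, H.cl_pull, hz0, map_zero, mul_zero]
  · intro hB i x
    constructor
    · intro hz
      have hz' := ((hp.mem_ckFil _ _ _).1 hz).1
      refine ⟨hz', ?_⟩
      have h1 := ((hp.mem_ckFil _ _ _).1 hz).2 (2 * i) (by omega)
      have h2 := congrArg H.cl h1
      rw [cl_act H, map_zero] at h2
      rw [← h2, hp.act_self]
      have h3 := H.cl_mem hz'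
      have : ((2 * i : ℕ) : ℤ) = 2 * (i : ℤ) := by push_cast; rfl
      rw [this]
      exact h3
    · rintro ⟨hx, hx0⟩
      obtain ⟨h1, h2⟩ := expand hG hx
      rw [h2, mem_ckFil_product H hG h h' i _ h1]
      intro j hj
      rw [hB]
      refine ⟨?_, ?_⟩
      · rw [Nat.cast_sub hj]
        exact h1 j
      · rw [coef, H.cl_push, map_mul, hx0, mul_zero, map_zero]

/-- **The result for a generating system.** -/
theorem murreForProduct_of_gen (hD : ∀ j, Pool.Agent.W484.CK.DivisorProduct C (deg j) (D j)) :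
    MurreForProduct H A Z := by
  refine ⟨J, inferInstance, deg, D, hD, fun i x hx => ?_, fun π ρ h h' => ?_⟩
  swap
  · rw [isDecomposition_iff] at h h' ⊢
    refine ⟨h.prod h', fun i z hz n => ?_, satisfiesB0_iff H hG h h',
      satisfiesB1_iff H hG h h', satisfiesD_iff H hG h h'⟩
    simp only [inFil_iff]
    exact mem_ckFil_product H hG h h' i z hz n
  obtain ⟨h1, h2⟩ := expand hG hx
  refine ⟨fun j => coef (E j) x, ⟨h1, h2⟩, fun z hz => ?_⟩
  funext j
  have h3 := coef_gen hG z j
  have h4 : x = ∑ i, C.ext (D i) (z i) := hz.2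
  rw [← h4] at h3
  exact h3.symm

end weil

end Pool.Agent.N166.MU
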